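import Pool.Agent.MP_77f003_co.H62.HubA

/-!
Either a fat clique or a large group fixing many far hubs.
-/

namespace Pool.Agent.MP_77f003_co.H49

open SimpleGraph MulAction
open scoped Pointwise

variable {V : Type} {G : SimpleGraph V}

theorem hub_stab (A : Set V) : (stab A : Subgroup (G ≃g G)) = stabilizer (G ≃g G) A :=
  Subgroup.ext fun φ => (mem_stabilizer_set (a := φ) (s := A)).symm

theorem hub_conn {D : Set V} (h : Conn G D) (φ : G ≃g G) : Conn G (φ • D) := by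
  rintro _ ⟨x, hx, rfl⟩ _ ⟨y, hy, rfl⟩
  exact (h x hx y hy).map φ

theorem hub_index {Γ X Y : Type} [Group Γ] [MulAction Γ X] [MulAction Γ Y] (W₀ : Subgroup Γ)
    (a : ℕ → X) (m : ℕ∞) (s : ℕ) (h : ∀ i < s, (orbit W₀ (a i)).encard ≤ m) :
    ∃ W ≤ W₀, (∀ i < s, W ≤ stabilizer Γ (a i)) ∧
      ∀ y : Y, (orbit W₀ y).encard ≤ m ^ s * (orbit W y).encard := by
  induction s with
  | zero => exact ⟨W₀, le_rfl, by simp, by simp⟩
  | succ s ih =>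
    obtain ⟨W, h1, h2, h3⟩ := ih fun i hi => h i (by omega)
    refine ⟨W ⊓ stabilizer Γ (a s), inf_le_left.trans h1, fun i hi => ?_, fun y => ?_⟩
    · rcases Nat.lt_succ_iff_lt_or_eq.1 hi with hi | rfl
      exacts [inf_le_left.trans (h2 i hi), inf_le_right]
    · rw [pow_succ, mul_assoc]
      refine (h3 y).trans (mul_le_mul' le_rfl ((hub_cover W (a s) y).trans ?_))
      exact mul_le_mul' ((hub_mono _ h1).trans (h s (by omega))) le_rfl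

theorem hub_core {H : Subgroup (G ≃g G)} (hH : FinOrb H) {D : Set V} (hne : D.Nonempty)
    (hD : Conn G D) (hs : H ≤ stabilizer (G ≃g G) D) :
    ∃ Z ⊆ D, Z.Finite ∧ Z.Nonempty ∧ Conn G Z ∧ H ≤ stabilizer (G ≃g G) Z := by
  obtain ⟨x, hx⟩ := hne
  have h0 : ∀ φ ∈ H, ∀ z ∈ D, φ • z ∈ D := fun φ hφ z hz => (mem_stabilizer_set.1 (hs hφ) z).2 hz
  have h1 : ∀ y : orbit H x, ∃ P : Set V, P.Finite ∧ P ⊆ D ∧ y.1 ∈ P ∧ ∀ z ∈ P, Lk G P z x := by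
    rintro ⟨y, hy⟩
    obtain ⟨φ, hφ, rfl⟩ := hub_mem.1 hy
    exact (hD _ (h0 φ hφ x hx) x hx).fin
  choose p p1 p2 p3 p4 using h1
  have := (hH x).to_subtype
  have q1 : (⋃ y, p y).Finite := Set.finite_iUnion p1
  let Z : Set V := {z | ∃ φ ∈ H, ∃ y, ∃ u ∈ p y, φ • u = z}
  have z1 : ∀ y, p y ⊆ Z := fun y u hu => ⟨1, H.one_mem, y, u, hu, one_smul _ _⟩
  have z2 : ∀ φ ∈ H, ∀ z ∈ Z, φ • z ∈ Z := by
    rintro φ hφ _ ⟨ψ, hψ, y, u, hu, rfl⟩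
    exact ⟨φ * ψ, H.mul_mem hφ hψ, y, u, hu, mul_smul _ _ _⟩
  have z3 : ∀ z ∈ Z, Lk G Z z x := by
    rintro _ ⟨φ, hφ, y, u, hu, rfl⟩
    have a1 : Lk G Z (φ • u) (φ • x) := ((p4 y u hu).map φ).mono (by
      rintro _ ⟨w, hw, rfl⟩
      exact z2 φ hφ w (z1 y hw))
    exact a1.trans ((p4 ⟨_, hub_mem.2 ⟨φ, hφ, rfl⟩⟩ _ (p3 _)).mono (z1 _))
  refine ⟨Z, ?_, (q1.biUnion fun u _ => hH u).subset ?_,
    ⟨x, z1 ⟨x, mem_orbit_self x⟩ (p3 _)⟩, fun a ha b hb => (z3 a ha).trans (z3 b hb).symm,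
    fun φ hφ => mem_stabilizer_set.2 fun z => ⟨fun hz => ?_, z2 φ hφ z⟩⟩
  · rintro _ ⟨φ, hφ, y, u, hu, rfl⟩
    exact h0 φ hφ u (p2 y hu)
  · rintro _ ⟨φ, hφ, y, u, hu, rfl⟩
    exact Set.mem_biUnion (Set.mem_iUnion.2 ⟨y, hu⟩) (hub_mem.2 ⟨φ, hφ, rfl⟩)
  · simpa using z2 φ⁻¹ (H.inv_mem hφ) _ hz

theorem hub_gap {α : Type} (N : ℕ → Set α) (s : ℕ) (hm : ∀ i, N i ⊆ N (i + 1))
    (h : (N s).encard < s) : ∃ i < s, N (i + 1) ⊆ N i := by
  by_contra hc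
  push Not at hc
  have key : ∀ i ≤ s, (i : ℕ∞) ≤ (N i).encard := by
    intro i hi
    induction i with
    | zero => simp
    | succ i ih =>
      obtain ⟨x, x1, x2⟩ := Set.not_subset.1 (hc i (by omega))
      have := Set.encard_le_encard (Set.insert_subset x1 (hm i))
      rw [Set.encard_insert_of_notMem x2] at this
      exact le_trans (by push_cast; exact add_le_add_left (ih (by omega)) 1) this
  exact absurd (key s le_rfl) (not_le.2 h)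

/-- The first case: many translates with small orbits. -/
theorem hub_caseA [Fact G.Connected] {P : Subgroup (G ≃g G)} {A D : Set V} {R s n m : ℕ}
    (hm : 0 < m) (hd : ∀ φ ∈ P, φ ∈ stab A ∨ Disjoint (φ '' A) A)
    (hQ : ∀ F : Finset (G ≃g G), (∀ φ ∈ F, φ ∈ P) →
      ∃ Q, FinOrb Q ∧ Q ≤ P ∧ P ⊓ stab A ≤ Q ∧ ∀ φ ∈ F, φ ∈ Q)
    (hL : Large (P ⊓ stab A) (n * m ^ s)) (hne : D.Nonempty) (hc : Conn G D)
    (hdeep : ∀ x ∈ D, ∀ y ∉ A, R < G.dist x y) (g : ℕ → G ≃g G) (hg : ∀ i < s, g i ∈ P)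
    (hinj : ∀ i < s, ∀ j < s, g i • A = g j • A → i = j)
    (ho : ∀ i < s, (orbit (P ⊓ stab A : Subgroup (G ≃g G)) (g i • D)).encard ≤ m) :
    ∃ (W Q : Subgroup (G ≃g G)) (Z : Set V) (g : ℕ → G ≃g G), W ≤ Q ∧ Q ≤ P ∧
      FinOrb Q ∧ Large W n ∧ Z.Finite ∧ Z.Nonempty ∧ Conn G Z ∧
      (∀ i < s, g i ∈ Q ∧ W ≤ stab (g i '' Z)) ∧
      ∀ i < s, ∀ j < s, i ≠ j → Far G R (g i '' Z) (g j '' Z) := by
  classical
  obtain ⟨Q, q1, q2, q3, q4⟩ := hQ ((Finset.range s).image g) (by simpa using hg)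
  have q5 : ∀ i < s, g i ∈ Q := by simpa using q4
  have hfin : ∀ W ≤ Q, FinOrb W := fun W hW x => Set.finite_of_encard_le_coe
    ((hub_mono x hW).trans (q1 x).cast_ncard_eq.ge)
  obtain ⟨W, w1, w2, w3⟩ := hub_index (Y := V) (P ⊓ stab A) (fun i => g i • D) m s ho
  obtain ⟨Z, z1, z2, z3, z4, z5⟩ := hub_core (hfin _ inf_le_left) hne hc
    (inf_le_right : Q ⊓ stabilizer (G ≃g G) D ≤ _)
  have hDA : D ⊆ A := fun x hx => by
    by_contra h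
    simpa using hdeep x hx x h
  refine ⟨W, Q, Z, g, w1.trans q3, q2, q1, fun x => ?_, z2, z3, z4, fun i hi => ⟨q5 i hi, ?_⟩,
    fun i hi j hj hij => ?_⟩
  · have a1 := w3 x
    rw [← (hfin _ q3 x).cast_ncard_eq, ← (hfin _ (w1.trans q3) x).cast_ncard_eq] at a1
    have a2 : (orbit (P ⊓ stab A : Subgroup (G ≃g G)) x).ncard ≤ m ^ s * (orbit W x).ncard := by
      exact_mod_cast a1
    refine Nat.le_of_mul_le_mul_left ?_ (pow_pos hm s)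
    rw [mul_comm]
    exact (hL x).trans a2
  · intro w hw
    have a1 : (g i)⁻¹ * w * g i ∈ Q ⊓ stabilizer (G ≃g G) D := by
      refine ⟨Q.mul_mem (Q.mul_mem (Q.inv_mem (q5 i hi)) (q3 (w1 hw))) (q5 i hi),
        mem_stabilizer_iff.2 ?_⟩
      rw [mul_smul, mul_smul, mem_stabilizer_iff.1 (w2 i hi hw), inv_smul_smul]
    have a2 := mem_stabilizer_iff.1 (z5 a1)
    rw [mul_smul, mul_smul, inv_smul_eq_iff] at a2
    rw [hub_stab]
    exact mem_stabilizer_iff.2 a2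
  · rintro _ ⟨x, hx, rfl⟩ _ ⟨y, hy, rfl⟩
    have a1 : G.dist (g i x) (g j y) = G.dist x (((g i)⁻¹ * g j) y) := by
      rw [← dist_iso (g i) x]
      congr 1
      exact (smul_inv_smul (g i) (g j • y)).symm
    rw [a1]
    refine (hdeep x (z1 hx) _ fun hA => ?_).le
    rcases hd _ (P.mul_mem (P.inv_mem (hg i hi)) (hg j hj)) with e | e
    · rw [hub_stab, mem_stabilizer_iff, mul_smul, inv_smul_eq_iff] at e
      exact hij (hinj i hi j hj e.symm)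
    · exact Set.disjoint_left.1 e ⟨y, hDA (z1 hy), rfl⟩ hA

/-- The second case: blocks of translates joined by many shortest links. -/
theorem hub_caseB (hM : MaderSpec) [Fact G.Connected] [G.LocallyFinite] {P S : Subgroup (G ≃g G)}
    {A D : Set V} {Δ K h s k : ℕ} (hΔ : ∀ x, G.degree x ≤ Δ)
    (hd : ∀ φ ∈ P, φ ∈ stab A ∨ Disjoint (φ '' A) A)
    (hQ : ∀ F : Finset (G ≃g G), (∀ φ ∈ F, φ ∈ P) →
      ∃ Q, FinOrb Q ∧ Q ≤ P ∧ P ⊓ stab A ≤ Q ∧ ∀ φ ∈ F, φ ∈ Q)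
    (hne : D.Nonempty) (hc : Conn G D) (hdeep : ∀ x ∈ D, ∀ y ∉ A, 2 * K + 2 ≤ G.dist x y)
    (hSP : S ≤ P) (hAS : P ⊓ stab A ≤ S) (hex : ∃ ψ ∈ P, ψ ∉ S)
    (hSA : (orbit S A).encard ≤ s) (hSD : (orbit S D).encard ≤ k)
    (hbig : ∀ ψ ∈ P, ψ ∉ S →
      ((k ^ 2 * ((((Δ + 1) ^ (5 * K + 6)) ^ 2 + 2) * 2 ^ h) * s : ℕ) : ℕ∞) <
        (orbit (P ⊓ stab A : Subgroup (G ≃g G)) (ψ • A)).encard) : FatCl G K h := by
  classical
  have hDA : D ⊆ A := fun x hx => by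
    by_contra h
    simpa using hdeep x hx x h
  obtain ⟨x₀, hx₀⟩ := hne
  have hex' : ∃ l, ∃ x ∈ D, ∃ y ∈ D, ∃ ψ ∈ P, ψ ∉ S ∧ G.dist x (ψ y) = l := by
    obtain ⟨ψ, h1, h2⟩ := hex
    exact ⟨_, x₀, hx₀, x₀, hx₀, ψ, h1, h2, rfl⟩
  obtain ⟨x, hx, y, hy, φ, hφ, hφS, hl⟩ := Nat.find_spec hex'
  have hmin : ∀ x ∈ D, ∀ y ∈ D, ∀ ψ ∈ P, ψ ∉ S → Nat.find hex' ≤ G.dist x (ψ y) :=
    fun x hx y hy ψ h1 h2 => Nat.find_min' hex' ⟨x, hx, y, hy, ψ, h1, h2, rfl⟩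
  generalize Nat.find hex' = l at hl hmin
  have hl2 : 2 * K + 2 ≤ l := by
    rw [← hl]
    refine hdeep x hx _ fun hA => ?_
    rcases hd φ hφ with e | e
    · exact hφS (hAS ⟨hφ, e⟩)
    · exact Set.disjoint_left.1 e ⟨y, hDA hy, rfl⟩ hA
  obtain ⟨Q, q1, q2, q3, q4⟩ := hQ {φ} (by simpa using hφ)
  have q5 : φ ∈ Q := q4 φ (by simp)
  have hq : ∀ w g : G ≃g G, w • (g : (G ≃g G) ⧸ S) = (w * g : G ≃g G) := fun _ _ => rfl
  have hst : ∀ w g : G ≃g G, w ∈ stabilizer (G ≃g G) (g : (G ≃g G) ⧸ S) ↔ g⁻¹ * w * g ∈ S := by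
    intro w g
    rw [mem_stabilizer_iff, hq, eq_comm, QuotientGroup.eq, mul_assoc]
  have hJ : (orbit Q ((1 : G ≃g G) : (G ≃g G) ⧸ S)).Finite := by
    have a1 : (orbit (Q ⊓ stabilizer (G ≃g G) x : Subgroup (G ≃g G))
        ((1 : G ≃g G) : (G ≃g G) ⧸ S)).encard ≤ 1 := by
      rw [Set.encard_le_one_iff_subsingleton]
      refine Set.subsingleton_of_forall_eq ((1 : G ≃g G) : (G ≃g G) ⧸ S) fun b hb => ?_
      obtain ⟨w, ⟨w1, w2⟩, rfl⟩ := hub_mem.1 hb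
      refine mem_stabilizer_iff.1 ((hst w 1).2 ?_)
      rw [inv_one, one_mul, mul_one]
      refine hAS ⟨q2 w1, (hd w (q2 w1)).resolve_right fun e => ?_⟩
      exact Set.disjoint_left.1 e ⟨x, hDA hx, mem_stabilizer_iff.1 w2⟩ (hDA hx)
    have a2 := (hub_cover Q x _).trans (mul_le_mul' (q1 x).cast_ncard_eq.ge a1)
    rw [mul_one] at a2
    exact Set.finite_of_encard_le_coe a2
  set d := k ^ 2 * ((((Δ + 1) ^ (5 * K + 6)) ^ 2 + 2) * 2 ^ h) with hdd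
  have hdeg : (d : ℕ∞) ≤ (orbit (P ⊓ stab A : Subgroup (G ≃g G)) (φ : (G ≃g G) ⧸ S)).encard := by
    by_contra hc
    have a1 := hub_cover (P ⊓ stab A : Subgroup (G ≃g G)) (φ : (G ≃g G) ⧸ S) (φ • A)
    have a2 := (hub_conj (W' := S) φ A fun w (hw : w ∈ (P ⊓ stab A) ⊓
      stabilizer (G ≃g G) (φ : (G ≃g G) ⧸ S)) => (hst w φ).1 hw.2).trans hSA
    have a3 := (hbig φ hφ hφS).trans_le (a1.trans (mul_le_mul' (not_le.1 hc).le a2))
    rw [Nat.cast_mul] at a3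
    exact lt_irrefl _ a3
  have := hJ.to_subtype
  have := Fintype.ofFinite (orbit Q ((1 : G ≃g G) : (G ≃g G) ⧸ S))
  have : Nonempty (orbit Q ((1 : G ≃g G) : (G ≃g G) ⧸ S)) := ⟨⟨_, mem_orbit_self _⟩⟩
  let T : Finset (orbit Q ((1 : G ≃g G) : (G ≃g G) ⧸ S) × orbit Q ((1 : G ≃g G) : (G ≃g G) ⧸ S)) :=
    Finset.univ.filter fun e => ∃ q ∈ Q, (q : (G ≃g G) ⧸ S) = e.1.1 ∧ (q * φ : G ≃g G) = e.2.1
  have hT : Fintype.card (orbit Q ((1 : G ≃g G) : (G ≃g G) ⧸ S)) * d ≤ T.card := by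
    have a1 := hub_prod Q ((1 : G ≃g G) : (G ≃g G) ⧸ S) (φ : (G ≃g G) ⧸ S)
    have a2 := hdeg.trans (hub_mono (W' := Q ⊓ stabilizer (G ≃g G) ((1 : G ≃g G) : (G ≃g G) ⧸ S))
      _ fun w hw => ⟨q3 hw, (hst w 1).2 (by simpa using hAS hw)⟩)
    have a3 : orbit Q (((1 : G ≃g G) : (G ≃g G) ⧸ S), (φ : (G ≃g G) ⧸ S)) ⊆
        Prod.map Subtype.val Subtype.val '' (SetLike.coe T) := by
      intro p hp
      obtain ⟨q, hq1, rfl⟩ := hub_mem.1 hp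
      refine ⟨(⟨_, hub_mem.2 ⟨q, hq1, rfl⟩⟩, ⟨_, hub_mem.2 ⟨q * φ, Q.mul_mem hq1 q5, rfl⟩⟩),
        Finset.mem_filter.2 ⟨Finset.mem_univ _, q, hq1, ?_, ?_⟩, Prod.ext rfl ?_⟩
      · simp only [hq, mul_one]
      · simp only [hq, mul_one]
      · simp only [hq, mul_one, Prod.smul_snd, Prod.map_snd]
    have a4 := ((mul_le_mul' le_rfl a2).trans a1).trans
      ((Set.encard_le_encard a3).trans (Set.encard_image_le _ _))
    rw [Set.encard_coe_eq_coe_finsetCard] at a4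
    rw [← Nat.card_eq_fintype_card, Nat.card_coe_set_eq, ← Nat.cast_le (α := ℕ∞), Nat.cast_mul,
      hJ.cast_ncard_eq]
    exact a4
  have hk : 0 < k := by
    have := (Set.one_le_encard_iff_nonempty.2 ⟨D, mem_orbit_self D⟩).trans hSD
    exact_mod_cast this
  have : Nonempty (Fin k) := ⟨⟨0, hk⟩⟩
  obtain ⟨f, -, hf⟩ := (Set.finite_of_encard_le_coe hSD).exists_injOn_of_encard_le
    (t := (Set.univ : Set (Fin k))) (by simpa using hSD)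
  have hσ : ∀ i : Fin k, ∃ σ ∈ S, ∀ τ ∈ S, f (τ • D) = i → σ • D = τ • D := fun i => by
    by_cases hi : ∃ σ ∈ S, f (σ • D) = i
    · obtain ⟨σ, s1, s2⟩ := hi
      exact ⟨σ, s1, fun τ t1 t2 =>
        hf (hub_mem.2 ⟨σ, s1, rfl⟩) (hub_mem.2 ⟨τ, t1, rfl⟩) (s2.trans t2.symm)⟩
    · exact ⟨1, S.one_mem, fun τ t1 t2 => absurd ⟨τ, t1, t2⟩ hi⟩
  choose σ s1 s2 using hσ
  have hout : ∀ (β : (G ≃g G) ⧸ S) (g : G ≃g G), (g : (G ≃g G) ⧸ S) = β → β.out⁻¹ * g ∈ S :=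
    fun β g e => QuotientGroup.eq.1 ((QuotientGroup.out_eq' β).trans e.symm)
  have hcore : ∀ (β : (G ≃g G) ⧸ S) (g : G ≃g G) (i : Fin k), (g : (G ≃g G) ⧸ S) = β →
      i = f ((β.out⁻¹ * g) • D) → (β.out * σ i) • D = g • D := by
    intro β g i e1 e2
    rw [mul_smul, s2 i _ (hout β g e1) e2.symm, smul_smul, mul_inv_cancel_left]
  have hqe : ∀ e, ∃ q : G ≃g G, e ∈ T → (q : (G ≃g G) ⧸ S) = e.1.1 ∧ (q * φ : G ≃g G) = e.2.1 :=
    fun e => by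
      by_cases he : e ∈ T
      · obtain ⟨q, -, h2⟩ := (Finset.mem_filter.1 he).2
        exact ⟨q, fun _ => h2⟩
      · exact ⟨1, fun h => absurd h he⟩
  choose q hqe using hqe
  have hne : ∀ e ∈ T, e.1 ≠ e.2 := fun e he hh => by
    have a1 := (hqe e he).1.trans ((congrArg Subtype.val hh).trans (hqe e he).2.symm)
    rw [QuotientGroup.eq, inv_mul_cancel_left] at a1
    exact hφS a1
  obtain ⟨χ, hχ⟩ := hub_avg T (fun e => f ((e.1.1.out⁻¹ * q e) • D))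
    (fun e => f ((e.2.1.out⁻¹ * (q e * φ)) • D)) hne
  have hP : ∀ β : orbit Q ((1 : G ≃g G) : (G ≃g G) ⧸ S), β.1.out * σ (χ β) ∈ P := by
    rintro ⟨β, hβ⟩
    obtain ⟨w, w1, w2⟩ := hub_mem.1 hβ
    have a1 := hSP (hout β (w * 1) w2)
    have a2 := P.mul_mem a1 (P.inv_mem (q2 w1))
    rw [mul_one, mul_inv_cancel_right, inv_mem_iff] at a2
    exact P.mul_mem a2 (hSP (s1 _))
  refine hub_geo hM hΔ (fun β => (β.1.out * σ (χ β)) • D)
    (fun β => ⟨⟨_, x, hx, rfl⟩, hub_conn hc _⟩) hl2 (fun β β' hb => ?_) _ (fun e he => ?_)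
    (Nat.le_of_mul_le_mul_left (le_trans ?_ hχ) (pow_pos (by simpa using hk) 2))
  · rintro _ ⟨u, hu, rfl⟩ _ ⟨v, hv, rfl⟩
    have a1 := hmin u hu v hv _ (P.mul_mem (P.inv_mem (hP β)) (hP β')) fun hh => hb (by
      have a2 := QuotientGroup.eq.2 hh
      rw [QuotientGroup.mk_mul_of_mem _ (s1 _), QuotientGroup.mk_mul_of_mem _ (s1 _),
        QuotientGroup.out_eq', QuotientGroup.out_eq'] at a2
      exact Subtype.ext a2)
    rw [← dist_iso (β.1.out * σ (χ β))] at a1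
    refine a1.trans (le_of_eq ?_)
    congr 1
    exact smul_inv_smul (β.1.out * σ (χ β)) ((β'.1.out * σ (χ β')) • v)
  · obtain ⟨e1, e2, e3⟩ := Finset.mem_filter.1 he
    refine ⟨hne e e1, q e x, ?_, q e (φ y), ?_, by rw [dist_iso, hl]⟩
    · rw [hcore _ _ _ (hqe e e1).1 e2]
      exact ⟨x, hx, rfl⟩
    · rw [hcore _ _ _ (hqe e e1).2 e3]
      exact ⟨y, hy, rfl⟩
  · refine le_trans (le_of_eq ?_) hT
    rw [Fintype.card_fin, hdd]
    ring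

theorem hubSpec (hD : DeepSpec) (hM : MaderSpec) : HubSpec := by
  intro Δ K h s R n
  obtain ⟨b, hb⟩ : ∃ b, b = (Δ + 1) ^ (R + 2 * K + 2 + 2) := ⟨_, rfl⟩
  obtain ⟨M₀, hM₀⟩ : ∃ M₀,
    M₀ = (s * b) ^ 2 * ((((Δ + 1) ^ (5 * K + 6)) ^ 2 + 2) * 2 ^ h) * s + 1 := ⟨_, rfl⟩
  have hM1 : 1 ≤ M₀ := by omega
  refine ⟨n * (M₀ ^ 2 ^ s * b) ^ s, fun {V} G _ _ P A hΔ hA hd hQ hinf hL => ?_⟩
  obtain ⟨D, d1, d2, d3, d4⟩ := hD G Δ (R + 2 * K + 2) A hΔ hA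
  rw [← hb] at d4
  have d5 : ∀ (W : Subgroup (G ≃g G)) (g : G ≃g G),
      (orbit W (g • D)).encard ≤ (orbit W (g • A)).encard * b := fun W g => by
    refine (hub_cover W (g • A) _).trans (mul_le_mul' le_rfl ?_)
    refine (hub_conj (W' := stab A) g D fun w hw => ?_).trans
      (le_trans (Set.encard_le_encard fun B hB => ?_) d4)
    · rw [hub_stab, mem_stabilizer_iff, mul_smul, mul_smul, mem_stabilizer_iff.1 hw.2,
        inv_smul_smul]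
    · obtain ⟨w, hw, rfl⟩ := hub_mem.1 hB
      exact ⟨w, hw, rfl⟩
  let N : ℕ → Set (Set V) := fun i => {B | B ∈ orbit P A ∧
    (orbit (P ⊓ stab A : Subgroup (G ≃g G)) B).encard ≤ (M₀ ^ 2 ^ i : ℕ)}
  by_cases hs : (s : ℕ∞) ≤ (N s).encard
  · right
    obtain ⟨f, f1, f2⟩ := (Set.finite_Iio s).exists_injOn_of_encard_le (t := N s) (by
      rw [← (Set.finite_Iio s).cast_ncard_eq]
      simpa using hs)
    have hg : ∀ i, ∃ g : G ≃g G, i < s → g ∈ P ∧ g • A = f i := fun i => by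
      by_cases hi : i < s
      · obtain ⟨g, g1, g2⟩ := hub_mem.1 (f1 hi).1
        exact ⟨g, fun _ => ⟨g1, g2⟩⟩
      · exact ⟨1, fun h => absurd h hi⟩
    choose g hg using hg
    refine hub_caseA (D := D) (by rw [hb]; positivity) hd hQ hL d1 d2
      (fun x hx y hy => lt_of_le_of_lt (by omega) (d3 x hx y hy)) g (fun i hi => (hg i hi).1)
      (fun i hi j hj e => f2 hi hj (by rw [← (hg i hi).2, ← (hg j hj).2, e])) fun i hi => ?_
    rw [Nat.cast_mul]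
    exact (d5 _ _).trans (mul_le_mul' ((hg i hi).2 ▸ (f1 hi).2) le_rfl)
  left
  rw [not_le] at hs
  have hmono : Monotone N := fun i j hij B hB => ⟨hB.1, hB.2.trans (by
    exact_mod_cast Nat.pow_le_pow_right hM1 (Nat.pow_le_pow_right (by norm_num) hij))⟩
  obtain ⟨i, hi, hgap⟩ := hub_gap N s (fun i => hmono i.le_succ) hs
  have hle : (N i).encard ≤ s := (Set.encard_le_encard (hmono hi.le)).trans hs.le
  have hfin := Set.finite_of_encard_le_coe hle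
  have hA1 : A ∈ N i := by
    refine ⟨mem_orbit_self A, le_trans ?_ (Nat.cast_le.2 (Nat.one_le_pow _ _ hM1))⟩
    rw [Nat.cast_one, Set.encard_le_one_iff_subsingleton]
    refine Set.subsingleton_of_forall_eq A fun B hB => ?_
    obtain ⟨w, hw, rfl⟩ := hub_mem.1 hB
    exact mem_stabilizer_iff.1 (hub_stab (G := G) A ▸ hw.2)
  have hmul : ∀ φ ∈ P, φ • A ∈ N i → ∀ B ∈ N i, φ • B ∈ N i := by
    intro φ hφ h1 B h2
    obtain ⟨ψ, hψ, e⟩ := hub_mem.1 h2.1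
    refine hgap ⟨hub_mem.2 ⟨φ * ψ, P.mul_mem hφ hψ, by rw [mul_smul, e]⟩, ?_⟩
    rw [pow_succ, pow_mul, sq, Nat.cast_mul]
    refine (hub_cover _ (φ • A) _).trans (mul_le_mul' h1.2 (le_trans (hub_conj φ B ?_) h2.2))
    refine fun w hw => ⟨P.mul_mem (P.mul_mem (P.inv_mem hφ) hw.1.1) hφ, ?_⟩
    rw [hub_stab]
    refine mem_stabilizer_iff.2 ?_
    rw [mul_smul, mul_smul, mem_stabilizer_iff.1 hw.2, inv_smul_smul]
  let S : Subgroup (G ≃g G) :=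
    { carrier := {φ | φ ∈ P ∧ φ • A ∈ N i}
      one_mem' := ⟨P.one_mem, by rwa [one_smul]⟩
      mul_mem' := fun {φ ψ} h1 h2 =>
        ⟨P.mul_mem h1.1 h2.1, by rw [mul_smul]; exact hmul φ h1.1 h1.2 _ h2.2⟩
      inv_mem' := fun {φ} h1 => ⟨P.inv_mem h1.1, by
        obtain ⟨B, b1, b2⟩ := ((hfin.injOn_iff_bijOn_of_mapsTo (f := fun B => φ • B)
          (hmul φ h1.1 h1.2)).1 (MulAction.injective φ).injOn).surjOn hA1
        rwa [inv_smul_eq_iff.2 b2.symm]⟩ }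
  have hSA : (orbit S A).encard ≤ s := by
    refine le_trans (Set.encard_le_encard fun B hB => ?_) hle
    obtain ⟨w, hw, rfl⟩ := hub_mem.1 hB
    exact hw.2
  refine hub_caseB hM (S := S) (D := D) (s := s) (k := s * b) hΔ hd hQ d1 d2
    (fun x hx y hy => le_trans (by omega) (d3 x hx y hy).le) (fun φ hφ => hφ.1)
    (fun φ hφ => ⟨hφ.1, ?_⟩) ?_ hSA ?_ fun ψ h1 h2 => ?_
  · rwa [mem_stabilizer_iff.1 (hub_stab (G := G) A ▸ hφ.2)]
  · by_contra hc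
    push Not at hc
    refine hinf (hfin.subset ?_)
    rintro _ ⟨φ, hφ, rfl⟩
    exact (hc φ hφ).2
  · have := d5 S 1
    rw [one_smul, one_smul] at this
    rw [Nat.cast_mul]
    exact this.trans (mul_le_mul' hSA le_rfl)
  · refine lt_of_not_ge fun hc => h2 ⟨h1, hub_mem.2 ⟨ψ, h1, rfl⟩, hc.trans (Nat.cast_le.2 ?_)⟩
    exact le_trans (by omega) (Nat.le_self_pow (by positivity) M₀)

end Pool.Agent.MP_77f003_co.H49
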