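import Pool.Agent.MP_77f003_co.H49.USpec

/-!
Counting lemmas and the fat clique obtained from many shortest links between far connected sets.
-/

namespace Pool.Agent.MP_77f003_co.H49

open SimpleGraph MulAction

theorem hub_greedy {α : Type} (r : α → α → Prop) [DecidableRel r] (hr : ∀ a b, r a b → r b a)
    (c : ℕ) (T : Finset α) (h : ∀ a ∈ T, (T.filter (r a)).card ≤ c) :
    ∃ T' ⊆ T, (∀ a ∈ T', ∀ b ∈ T', a ≠ b → ¬ r a b) ∧ T.card ≤ (c + 1) * T'.card := by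
  classical
  induction T using Finset.strongInduction with
  | H T ih =>
    rcases T.eq_empty_or_nonempty with rfl | ⟨a, ha⟩
    · exact ⟨∅, by simp⟩
    have hs : T.filter (fun b => b ≠ a ∧ ¬ r a b) ⊂ T :=
      Finset.filter_ssubset.2 ⟨a, ha, by simp⟩
    obtain ⟨T', h1, h2, h3⟩ := ih _ hs fun x hx => (Finset.card_le_card
      (Finset.filter_subset_filter _ hs.subset)).trans (h x (hs.subset hx))
    have hn : a ∉ T' := fun hh => (Finset.mem_filter.1 (h1 hh)).2.1 rfl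
    refine ⟨insert a T', Finset.insert_subset ha (h1.trans hs.subset), fun x hx y hy hxy => ?_, ?_⟩
    · rcases Finset.mem_insert.1 hx with rfl | hx' <;> rcases Finset.mem_insert.1 hy with rfl | hy'
      · exact absurd rfl hxy
      · exact (Finset.mem_filter.1 (h1 hy')).2.2
      · exact fun hh => (Finset.mem_filter.1 (h1 hx')).2.2 (hr _ _ hh)
      · exact h2 x hx' y hy' hxy
    · have e : T ⊆ insert a (T.filter (r a) ∪ T.filter fun b => b ≠ a ∧ ¬ r a b) := by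
        intro b hb
        by_cases h4 : b = a
        · simp [h4]
        · by_cases h5 : r a b <;> simp [hb, h4, h5]
      have e1 := (Finset.card_le_card e).trans (Finset.card_insert_le _ _)
      have e2 := Finset.card_union_le (T.filter (r a)) (T.filter fun b => b ≠ a ∧ ¬ r a b)
      have e3 := h a ha
      rw [Finset.card_insert_of_notMem hn, Nat.mul_succ]
      omega

theorem hub_avg {J L : Type} [Fintype J] [Fintype L] [Nonempty L] [DecidableEq L]
    (T : Finset (J × J)) (a b : J × J → L) (h : ∀ e ∈ T, e.1 ≠ e.2) : ∃ χ : J → L,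
      T.card ≤ Fintype.card L ^ 2 * (T.filter fun e => χ e.1 = a e ∧ χ e.2 = b e).card := by
  classical
  have key : ∀ e ∈ T, Fintype.card (J → L) ≤ Fintype.card L ^ 2 *
      (Finset.univ.filter fun χ : J → L => χ e.1 = a e ∧ χ e.2 = b e).card := by
    intro e he
    have := Finset.card_le_card_of_injOn (s := (Finset.univ : Finset (J → L)))
      (t := (Finset.univ : Finset (L × L)) ×ˢ
        Finset.univ.filter fun χ : J → L => χ e.1 = a e ∧ χ e.2 = b e)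
      (fun χ => ((χ e.1, χ e.2), Function.update (Function.update χ e.1 (a e)) e.2 (b e)))
      (fun χ _ => by simp [Function.update_of_ne (h e he)]) (fun χ _ χ' _ hh => by
        simp only [Prod.mk.injEq] at hh
        funext j
        by_cases h1 : j = e.1
        · rw [h1, hh.1.1]
        by_cases h2 : j = e.2
        · rw [h2, hh.1.2]
        have := congrFun hh.2 j
        simpa [Function.update_of_ne h1, Function.update_of_ne h2] using this)
    simpa [sq] using this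
  have hs : ∑ _χ : J → L, T.card ≤ ∑ χ : J → L,
      Fintype.card L ^ 2 * (T.filter fun e => χ e.1 = a e ∧ χ e.2 = b e).card := by
    rw [← Finset.mul_sum]
    simp only [Finset.card_filter]
    rw [Finset.sum_comm, Finset.mul_sum, Finset.sum_const, smul_eq_mul, mul_comm,
      ← smul_eq_mul, ← Finset.sum_const]
    refine Finset.sum_le_sum fun e he => ?_
    rw [← Finset.card_filter]
    exact key e he
  obtain ⟨χ, -, hχ⟩ := Finset.exists_le_of_sum_le Finset.univ_nonempty hs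
  exact ⟨χ, hχ⟩

section Orbits

variable {Γ X Y : Type} [Group Γ] [MulAction Γ X] [MulAction Γ Y]

theorem hub_mem {W : Subgroup Γ} {a b : X} : b ∈ orbit W a ↔ ∃ w ∈ W, w • a = b :=
  ⟨fun ⟨w, hw⟩ => ⟨w.1, w.2, hw⟩, fun ⟨w, hw, e⟩ => ⟨⟨w, hw⟩, e⟩⟩

theorem hub_cover (W : Subgroup Γ) (a : X) (y : Y) : (orbit W y).encard ≤
    (orbit W a).encard * (orbit (W ⊓ stabilizer Γ a : Subgroup Γ) y).encard := by
  have h1 : ∀ b : X, ∃ t ∈ W, b ∈ orbit W a → t • a = b := fun b => by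
    by_cases hb : b ∈ orbit W a
    · obtain ⟨w, hw, e⟩ := hub_mem.1 hb
      exact ⟨w, hw, fun _ => e⟩
    · exact ⟨1, W.one_mem, fun h => absurd h hb⟩
  have h2 : ∀ z : Y, ∃ w ∈ W, z ∈ orbit W y → w • y = z := fun z => by
    by_cases hz : z ∈ orbit W y
    · obtain ⟨w, hw, e⟩ := hub_mem.1 hz
      exact ⟨w, hw, fun _ => e⟩
    · exact ⟨1, W.one_mem, fun h => absurd h hz⟩
  choose t t1 t2 using h1
  choose w w1 w2 using h2
  rw [← Set.encard_prod]
  refine Set.encard_le_encard_of_injOn (f := fun z => (w z • a, (t (w z • a))⁻¹ • z))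
    (fun z hz => ?_) fun z _ z' _ hh => ?_
  · have hb : w z • a ∈ orbit W a := hub_mem.2 ⟨_, w1 z, rfl⟩
    refine ⟨hb, hub_mem.2 ⟨(t (w z • a))⁻¹ * w z, ⟨W.mul_mem (W.inv_mem (t1 _)) (w1 z), ?_⟩, ?_⟩⟩
    · refine mem_stabilizer_iff.2 ?_
      rw [mul_smul, inv_smul_eq_iff, t2 _ hb]
    · rw [mul_smul, w2 z hz]
  · simp only [Prod.mk.injEq] at hh
    rw [hh.1] at hh
    exact MulAction.injective _ hh.2

theorem hub_prod (W : Subgroup Γ) (a : X) (y : Y) :
    (orbit W a).encard * (orbit (W ⊓ stabilizer Γ a : Subgroup Γ) y).encard ≤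
      (orbit W (a, y)).encard := by
  have h1 : ∀ b : X, ∃ t ∈ W, b ∈ orbit W a → t • a = b := fun b => by
    by_cases hb : b ∈ orbit W a
    · obtain ⟨w, hw, e⟩ := hub_mem.1 hb
      exact ⟨w, hw, fun _ => e⟩
    · exact ⟨1, W.one_mem, fun h => absurd h hb⟩
  choose t t1 t2 using h1
  rw [← Set.encard_prod]
  refine Set.encard_le_encard_of_injOn (f := fun p => (p.1, t p.1 • p.2))
    (fun p hp => ?_) fun p _ p' _ hh => ?_
  · obtain ⟨w, ⟨w1, w2⟩, e⟩ := hub_mem.1 hp.2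
    refine hub_mem.2 ⟨t p.1 * w, W.mul_mem (t1 _) w1, Prod.ext ?_ ?_⟩
    · rw [Prod.smul_fst, mul_smul, mem_stabilizer_iff.1 w2, t2 _ hp.1]
    · rw [Prod.smul_snd, mul_smul, e]
  · simp only [Prod.mk.injEq] at hh
    refine Prod.ext hh.1 ?_
    rw [hh.1] at hh
    exact MulAction.injective _ hh.2

theorem hub_conj {W W' : Subgroup Γ} (g : Γ) (y : Y) (h : ∀ w ∈ W, g⁻¹ * w * g ∈ W') :
    (orbit W (g • y)).encard ≤ (orbit W' y).encard := by
  refine le_trans (Set.encard_le_encard ?_) (Set.encard_image_le (fun z => g • z) _)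
  intro z hz
  obtain ⟨w, hw, rfl⟩ := hub_mem.1 hz
  exact ⟨_, hub_mem.2 ⟨_, h w hw, rfl⟩, by simp [mul_smul]⟩

theorem hub_mono {W W' : Subgroup Γ} (y : Y) (h : W ≤ W') :
    (orbit W y).encard ≤ (orbit W' y).encard := by
  have := hub_conj (W := W) (W' := W') 1 y (fun w hw => by simpa using h hw)
  rwa [one_smul] at this

end Orbits

variable {V : Type} {G : SimpleGraph V}

theorem hub_geo (hM : MaderSpec) [Fact G.Connected] [G.LocallyFinite] {Δ K h l : ℕ}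
    (hΔ : ∀ x, G.degree x ≤ Δ) {J : Type} [Fintype J] [Nonempty J] (C : J → Set V)
    (hC : ∀ β, (C β).Nonempty ∧ Conn G (C β)) (hl : 2 * K + 2 ≤ l)
    (hfar : ∀ β β', β ≠ β' → Far G l (C β) (C β')) (T : Finset (J × J))
    (hT : ∀ e ∈ T, e.1 ≠ e.2 ∧ ∃ x ∈ C e.1, ∃ y ∈ C e.2, G.dist x y ≤ l)
    (hcard : (((Δ + 1) ^ (5 * K + 6)) ^ 2 + 2) * (2 ^ h * Fintype.card J) ≤ T.card) :
    FatCl G K h := by
  classical
  have hγ : ∀ e : J × J, ∃ γ : ℕ → V, e ∈ T → γ 0 ∈ C e.1 ∧ γ l ∈ C e.2 ∧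
      ∀ i, i < l → G.Adj (γ i) (γ (i + 1)) := fun e => by
    by_cases he : e ∈ T
    · obtain ⟨h1, x, hx, y, hy, h2⟩ := hT e he
      obtain ⟨g, g0, g1, g2⟩ := exists_geo (G := G) x y
      rw [le_antisymm h2 (hfar _ _ h1 x hx y hy)] at g1 g2
      exact ⟨g, fun _ => ⟨g0 ▸ hx, g1 ▸ hy, g2⟩⟩
    · exact ⟨fun _ => (hC e.1).1.some, fun h => absurd h he⟩
  choose γ hγ using hγ
  obtain ⟨r, hr1, hr2⟩ : ∃ r, 2 * r + (2 * K + 2) ≤ l ∧ l ≤ 2 * r + (2 * K + 3) :=
    ⟨l / 2 - (K + 1), by omega, by omega⟩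
  set N : J → Set V := fun β => {z | ∃ x ∈ C β, G.dist x z ≤ r} with hN
  set M : J × J → Set V := fun e => γ e '' Set.Icc r (l - r) with hMdef
  have f1 : ∀ β β', β ≠ β' → Far G (2 * K + 2) (N β) (N β') := by
    rintro β β' hb z ⟨x, hx, h1⟩ z' ⟨x', hx', h2⟩
    have e1 := hfar _ _ hb x hx x' hx'
    have e2 := tri (G := G) x z x'
    have e3 := tri (G := G) z z' x'
    rw [dcomm] at h2
    omega
  have f2 : ∀ e ∈ T, ∀ β, β ≠ e.1 → β ≠ e.2 → Far G K (M e) (N β) := by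
    rintro e he β h1 h2 _ ⟨i, hi, rfl⟩ w ⟨x, hx, h3⟩
    obtain ⟨g0, g1, g2⟩ := hγ e he
    have e1 := hfar _ _ h1 x hx _ g0
    have e2 := hfar _ _ h2 x hx _ g1
    have e3 := dist_geo_le g2 (Nat.zero_le i) (by have := hi.2; omega)
    have e4 := dist_geo_le g2 (i := i) (j := l) (by have := hi.2; omega) le_rfl
    have e5 := tri (G := G) x w (γ e i)
    have e6 := tri (G := G) x (γ e i) (γ e 0)
    have e7 := tri (G := G) x (γ e i) (γ e l)
    rw [dcomm] at e3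
    rw [dcomm (γ e i) w]
    have := hi.2
    omega
  have f3 : ∀ e ∈ T, ∀ i ≤ r, γ e i ∈ N e.1 := fun e he i hi =>
    ⟨_, (hγ e he).1, (dist_geo_le (hγ e he).2.2 (Nat.zero_le i) (by omega)).trans (by omega)⟩
  have f4 : ∀ e ∈ T, ∀ i ≤ l, l - r ≤ i → γ e i ∈ N e.2 := fun e he i hi hi' =>
    ⟨_, (hγ e he).2.1, by
      rw [dcomm]
      exact (dist_geo_le (hγ e he).2.2 hi le_rfl).trans (by omega)⟩
  have f5 : ∀ β, ∀ x ∈ C β, ∀ z ∈ N β, Lk G (N β) x z := by
    rintro β x hx z ⟨y, hy, h1⟩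
    exact Lk.trans (((hC β).2 x hx y hy).mono fun w hw => ⟨w, hw, by simp⟩)
      (Lk.ball fun w hw => ⟨y, hy, hw.trans h1⟩)
  have f6 : ∀ e ∈ T, ∀ S : Set V, ∀ i j, i ≤ j → j ≤ l → (∀ k, i ≤ k → k ≤ j → γ e k ∈ S) →
      Lk G S (γ e i) (γ e j) := by
    intro e he S i j hij hj hS
    obtain ⟨d, rfl⟩ := Nat.exists_eq_add_of_le hij
    exact Lk.seq (g := fun k => γ e (i + k)) (hS _ le_rfl hij) fun k hk =>
      Lk.adj ((hγ e he).2.2 _ (by omega)) (hS _ (by omega) (by omega)) (hS _ (by omega) (by omega))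
  have f7 : ∀ e ∈ T, ∀ z ∈ M e, ∀ z' ∈ M e, G.dist z z' ≤ 2 * K + 3 := by
    rintro e he _ ⟨i, hi, rfl⟩ _ ⟨j, hj, rfl⟩
    have := hi.1
    have := hi.2
    have := hj.1
    have := hj.2
    rcases le_total i j with hij | hij
    · exact (dist_geo_le (hγ e he).2.2 hij (by omega)).trans (by omega)
    · rw [dcomm]
      exact (dist_geo_le (hγ e he).2.2 hij (by omega)).trans (by omega)
  have m1 : ∀ e, γ e r ∈ M e := fun e => ⟨r, ⟨le_rfl, by omega⟩, rfl⟩
  have m2 : ∀ e, γ e (l - r) ∈ M e := fun e => ⟨l - r, ⟨by omega, le_rfl⟩, rfl⟩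
  have uniq : ∀ β β' z, z ∈ N β → z ∈ N β' → β = β' := fun β β' z h1 h2 => by
    by_contra hb
    have := f1 _ _ hb z h1 z h2
    simp at this
  obtain ⟨T', t1, t2, t3⟩ := hub_greedy (fun e e' : J × J => e' = e.swap ∨ ¬ Far G K (M e) (M e'))
    (fun e e' hh => hh.imp (fun h => by rw [h, Prod.swap_swap]) fun h h' => h h'.symm)
    (((Δ + 1) ^ (5 * K + 6)) ^ 2 + 1) T (fun e he => by
      have e1 : (T.filter fun e' => ¬ Far G K (M e) (M e')).card ≤
          (ball G (γ e r) (5 * K + 6) ×ˢ ball G (γ e r) (5 * K + 6)).card := by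
        refine Finset.card_le_card_of_injOn (fun e' => (γ e' r, γ e' (l - r))) (fun e' he' => ?_)
          fun e₁ h₁ e₂ h₂ hh => ?_
        · obtain ⟨he1, he2⟩ := Finset.mem_filter.1 he'
          simp only [Far, not_forall, not_le] at he2
          obtain ⟨z, hz, z', hz', hd⟩ := he2
          have a1 := f7 e he _ (m1 e) z hz
          have a2 := f7 e' he1 z' hz' _ (m1 e')
          have a3 := f7 e' he1 z' hz' _ (m2 e')
          have a4 := tri (G := G) (γ e r) z z'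
          have a5 := tri (G := G) (γ e r) z' (γ e' r)
          have a6 := tri (G := G) (γ e r) z' (γ e' (l - r))
          simp only [Finset.coe_product, Set.mem_prod, Finset.mem_coe, mem_ball]
          omega
        · have he1 := (Finset.mem_filter.1 h₁).1
          have he2 := (Finset.mem_filter.1 h₂).1
          simp only [Prod.mk.injEq] at hh
          exact Prod.ext (uniq _ _ _ (f3 e₁ he1 r le_rfl) (hh.1 ▸ f3 e₂ he2 r le_rfl))
            (uniq _ _ _ (f4 e₁ he1 (l - r) (by omega) le_rfl)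
              (hh.2 ▸ f4 e₂ he2 (l - r) (by omega) le_rfl))
      have e2 := card_ball_le hΔ (γ e r) (5 * K + 6)
      rw [Finset.card_product] at e1
      have e3 : T.filter (fun e' => e' = e.swap ∨ ¬ Far G K (M e) (M e')) ⊆
          insert e.swap (T.filter fun e' => ¬ Far G K (M e) (M e')) := fun e' he' => by
        obtain ⟨a1, a2⟩ := Finset.mem_filter.1 he'
        exact Finset.mem_insert.2 (a2.imp id fun a => Finset.mem_filter.2 ⟨a1, a⟩)
      have e4 := (Finset.card_le_card e3).trans (Finset.card_insert_le _ _)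
      have e5 := Nat.mul_le_mul e2 e2
      rw [sq]
      omega)
  have t4 : ∀ e ∈ T', ∀ e' ∈ T', e ≠ e' → Far G K (M e) (M e') := fun e he e' he' hh =>
    not_not.1 fun a => t2 e he e' he' hh (Or.inr a)
  let H : SimpleGraph J := SimpleGraph.fromRel fun β β' => (β, β') ∈ T'
  have hH : T'.card ≤ H.edgeSet.ncard := by
    rw [← Set.ncard_coe_finset]
    refine Set.ncard_le_ncard_of_injOn (fun e => s(e.1, e.2)) (fun e he => ?_)
      (fun e he e' he' hh => ?_) (Set.toFinite _)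
    · exact (SimpleGraph.fromRel_adj (fun β β' => (β, β') ∈ T') _ _).2
        ⟨(hT e (t1 he)).1, Or.inl he⟩
    · by_contra hne
      rcases Sym2.eq_iff.1 hh with a | a
      · exact hne (Prod.ext a.1 a.2)
      · exact t2 e he e' he' hne (Or.inl (Prod.ext a.2.symm a.1.symm))
  obtain ⟨B, b1, b2⟩ := hM h H (by
    rw [Nat.card_eq_fintype_card]
    exact (Nat.le_of_mul_le_mul_left (hcard.trans t3) (by omega)).trans hH)
  let B' : ℕ → Set J := fun i => if hi : i < h then B ⟨i, hi⟩ else ∅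
  have c1 : ∀ i < h, (B' i).Nonempty ∧ Conn H (B' i) := fun i hi => by
    simp only [B', dif_pos hi]
    exact b1 _
  have c2 : ∀ i < h, ∀ j < h, i ≠ j → ∀ β ∈ B' i, ∀ β' ∈ B' j, β ≠ β' := by
    intro i hi j hj hij β h1 β' h2 e
    simp only [B', dif_pos hi, dif_pos hj] at h1 h2
    exact Set.disjoint_left.1 (b2 ⟨i, hi⟩ ⟨j, hj⟩ (by simpa using hij)).1 h1 (e ▸ h2)
  have c3 : ∀ i j : ℕ, ∃ e : J × J, i < h → j < h → i ≠ j → e ∈ T' ∧
      (e.1 ∈ B' i ∧ e.2 ∈ B' j ∨ e.1 ∈ B' j ∧ e.2 ∈ B' i) := fun i j => by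
    by_cases hh : i < h ∧ j < h ∧ i ≠ j
    · obtain ⟨hi, hj, hij⟩ := hh
      obtain ⟨x, hx, y, hy, hxy⟩ := (b2 ⟨i, hi⟩ ⟨j, hj⟩ (by simpa using hij)).2
      simp only [B', dif_pos hi, dif_pos hj]
      rcases ((SimpleGraph.fromRel_adj _ _ _).1 hxy).2 with a | a
      · exact ⟨(x, y), fun _ _ _ => ⟨a, Or.inl ⟨hx, hy⟩⟩⟩
      · exact ⟨(y, x), fun _ _ _ => ⟨a, Or.inr ⟨hy, hx⟩⟩⟩
    · exact ⟨Classical.arbitrary _, fun a b c => absurd ⟨a, b, c⟩ hh⟩
  choose ed hed using c3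
  let S : ℕ → Set V := fun i => {z | (∃ β ∈ B' i, z ∈ N β) ∨
    ∃ e ∈ T', e.1 ∈ B' i ∧ e.2 ∈ B' i ∧ z ∈ M e}
  have s1 : ∀ i, ∀ β ∈ B' i, N β ⊆ S i := fun i β hβ z hz => Or.inl ⟨β, hβ, hz⟩
  have s2 : ∀ i, ∀ e ∈ T', e.1 ∈ B' i → e.2 ∈ B' i → ∀ k ≤ l, Lk G (S i) (γ e 0) (γ e k) := by
    intro i e he h1 h2 k hk
    refine f6 e (t1 he) _ 0 k (Nat.zero_le _) hk fun j _ hj => ?_
    by_cases a : j ≤ r
    · exact s1 i _ h1 (f3 e (t1 he) j a)
    by_cases b : l - r ≤ j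
    · exact s1 i _ h2 (f4 e (t1 he) j (by omega) b)
    exact Or.inr ⟨e, he, h1, h2, j, ⟨by omega, by omega⟩, rfl⟩
  have s3 : ∀ i β, β ∈ B' i → ∀ x ∈ C β, ∀ y ∈ C β, Lk G (S i) x y := fun i β hβ x hx y hy =>
    (f5 β x hx y ⟨y, hy, by simp⟩).mono (s1 i β hβ)
  have s4 : ∀ i β β', Lk H (B' i) β β' → ∀ x ∈ C β, ∀ y ∈ C β', Lk G (S i) x y := by
    rintro i β β' ⟨p, hp⟩
    induction p with
    | nil => exact s3 i _ (hp _ (by simp))
    | @cons a b c hab q ih =>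
      intro x hx y hy
      have ha : a ∈ B' i := hp a (by simp)
      have hb : b ∈ B' i := hp b (by simp)
      have ih' := ih fun z hz => hp z (by simp [hz])
      rcases ((SimpleGraph.fromRel_adj _ _ _).1 hab).2 with e | e
      · exact ((s3 i a ha x hx _ (hγ _ (t1 e)).1).trans (s2 i _ e ha hb l le_rfl)).trans
          (ih' _ (hγ _ (t1 e)).2.1 y hy)
      · exact ((s3 i a ha x hx _ (hγ _ (t1 e)).2.1).trans (s2 i _ e hb ha l le_rfl).symm).trans
          (ih' _ (hγ _ (t1 e)).1 y hy)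
  have s5 : ∀ i, ∀ z ∈ S i, ∃ β ∈ B' i, ∃ x ∈ C β, Lk G (S i) x z := by
    rintro i z (⟨β, hβ, hz⟩ | ⟨e, he, h1, h2, k, hk, rfl⟩)
    · obtain ⟨x, hx⟩ := (hC β).1
      exact ⟨β, hβ, x, hx, (f5 β x hx z hz).mono (s1 i β hβ)⟩
    · exact ⟨_, h1, _, (hγ e (t1 he)).1, s2 i e he h1 h2 k (by have := hk.2; omega)⟩
  have s6 : ∀ e ∈ T', ∀ k, e.1 ∉ B' k → e.2 ∉ B' k → Far G K (M e) (S k) := by
    rintro e he k h1 h2 z hz w (⟨β, hβ, hw⟩ | ⟨e', he', h3, -, hw⟩)
    · exact f2 e (t1 he) β (fun a => h1 (a ▸ hβ)) (fun a => h2 (a ▸ hβ)) z hz w hw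
    · exact t4 e he e' he' (fun a => h1 (a ▸ h3)) z hz w hw
  have s7 : ∀ i < h, ∀ j < h, i ≠ j → ∀ k < h, (ed i j).1 ∈ B' k ∨ (ed i j).2 ∈ B' k →
      k = i ∨ k = j := by
    intro i hi j hj hij k hk hh
    by_contra hc
    rw [not_or] at hc
    rcases (hed i j hi hj hij).2 with a | a <;> rcases hh with b | b
    exacts [c2 k hk i hi hc.1 _ b _ a.1 rfl, c2 k hk j hj hc.2 _ b _ a.2 rfl,
      c2 k hk j hj hc.2 _ b _ a.1 rfl, c2 k hk i hi hc.1 _ b _ a.2 rfl]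
  refine ⟨Finset.range h, S, fun i j => M (ed i j), by simp, fun i hi => ?_,
    fun i hi j hj hij => ?_, fun i hi j hj hij => ?_, fun i hi j hj k hk m hm hij hkm hne => ?_,
    fun i hi j hj k hk hij h1 h2 => ?_⟩
  · rw [Finset.mem_range] at hi
    obtain ⟨β, hβ⟩ := (c1 i hi).1
    obtain ⟨x, hx⟩ := (hC β).1
    refine ⟨⟨x, s1 i β hβ ⟨x, hx, by simp⟩⟩, fun z hz w hw => ?_⟩
    obtain ⟨β₁, a1, x₁, a2, a3⟩ := s5 i z hz
    obtain ⟨β₂, a4, x₂, a5, a6⟩ := s5 i w hw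
    exact (a3.symm.trans (s4 i _ _ ((c1 i hi).2 _ a1 _ a4) _ a2 _ a5)).trans a6
  · rw [Finset.mem_range] at hi hj
    obtain ⟨a, b⟩ := hed i j hi hj hij.ne
    have a1 := f6 _ (t1 a) (M (ed i j)) r (l - r) (by omega) (by omega)
      fun k k1 k2 => ⟨k, ⟨k1, k2⟩, rfl⟩
    have a2 := f3 _ (t1 a) r le_rfl
    have a3 := f4 _ (t1 a) (l - r) (by omega) le_rfl
    rcases b with b | b
    · exact ⟨_, s1 i _ b.1 a2, _, s1 j _ b.2 a3, a1⟩
    · exact ⟨_, s1 i _ b.2 a3, _, s1 j _ b.1 a2, a1.symm⟩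
  · rw [Finset.mem_range] at hi hj
    rintro z (⟨β, hβ, hz⟩ | ⟨e, he, h1, h2, hz⟩) w hw
    · rcases hw with ⟨β', hβ', hw⟩ | ⟨e, he, h1, h2, hw⟩
      · exact le_trans (by omega) (f1 _ _ (c2 i hi j hj hij _ hβ _ hβ') z hz w hw)
      · exact (f2 e (t1 he) β (c2 i hi j hj hij _ hβ _ h1) (c2 i hi j hj hij _ hβ _ h2)).symm
          z hz w hw
    · exact s6 e he j (fun a => c2 i hi j hj hij _ h1 _ a rfl)
        (fun a => c2 i hi j hj hij _ h2 _ a rfl) z hz w hw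
  · rw [Finset.mem_range] at hi hj hk hm
    refine t4 _ (hed i j hi hj hij.ne).1 _ (hed k m hk hm hkm.ne).1 fun e => ?_
    have a1 := s7 i hi j hj hij.ne k hk
    have a2 := s7 i hi j hj hij.ne m hm
    rw [e] at a1 a2
    rcases (hed k m hk hm hkm.ne).2 with a | a
    · have := a1 (Or.inl a.1)
      have := a2 (Or.inr a.2)
      omega
    · have := a1 (Or.inr a.2)
      have := a2 (Or.inl a.1)
      omega
  · rw [Finset.mem_range] at hi hj hk
    have a1 := s7 i hi j hj hij.ne k hk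
    exact s6 _ (hed i j hi hj hij.ne).1 k (fun a => (a1 (Or.inl a)).elim h1 h2)
      fun a => (a1 (Or.inr a)).elim h1 h2

end Pool.Agent.MP_77f003_co.H49
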